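import Pool.Agent.H140.PE.Stm
import Pool.Agent.H524.Ch.ExtA

set_option autoImplicit false

namespace Pool.Agent.H17.PE

open Polynomial
open scoped Classical

/-- the proportion of a sign pattern, elementary part -/
theorem patt_gen {A : Type} {k : ℕ} (T : Finset A) (m : Fin k → A → ℤ)
    (hm : ∀ i g, m i g = 0 ∨ m i g = 1 ∨ m i g = -1) (σ : Fin k → ℤ)
    (hσ : ∀ i, σ i = 1 ∨ σ i = -1) (ε : ℝ) (hε : 0 ≤ ε)
    (h : ∀ S : Finset (Fin k), S.Nonempty → |∑ f ∈ T, ∏ i ∈ S, (m i f : ℝ)| ≤ ε * T.card) :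
    |((T.filter (fun f => ∀ i, m i f = σ i)).card : ℝ) - T.card / 2 ^ k| ≤ ε * T.card +
        (T.filter (fun f => ∃ i, m i f = 0)).card := by
  have hN : ∀ f : A, (∏ i, (1 + (σ i : ℝ) * (m i f : ℝ))) / 2 ^ k =
      (∏ i, ((1 + (σ i : ℝ) * (m i f : ℝ)) / 2)) := by
    intro f
    rw [Finset.prod_div_distrib, Finset.prod_const, Finset.card_univ, Fintype.card_fin]
  have h1 : ∑ f ∈ T, (∏ i, (1 + (σ i : ℝ) * (m i f : ℝ))) =
      T.card + ∑ S ∈ (Finset.univ : Finset (Fin k)).powerset.erase ∅,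
        (∏ i ∈ S, (σ i : ℝ)) * ∑ f ∈ T, ∏ i ∈ S, (m i f : ℝ) := by
    have e1 : ∀ f : A, (∏ i, (1 + (σ i : ℝ) * (m i f : ℝ))) =
        ∑ S ∈ (Finset.univ : Finset (Fin k)).powerset, ∏ i ∈ S, ((σ i : ℝ) * (m i f : ℝ)) :=
      fun f => Finset.prod_one_add _
    rw [Finset.sum_congr rfl fun f _ => e1 f, Finset.sum_comm,
      ← Finset.add_sum_erase _ _ (Finset.empty_mem_powerset _)]
    congr 1
    · simp
    · refine Finset.sum_congr rfl fun S _ => ?_
      rw [Finset.mul_sum]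
      refine Finset.sum_congr rfl fun f _ => ?_
      rw [Finset.prod_mul_distrib]
  have hσabs : ∀ S : Finset (Fin k), |∏ i ∈ S, (σ i : ℝ)| ≤ 1 := by
    intro S
    rw [Finset.abs_prod]
    refine Finset.prod_le_one (fun _ _ => abs_nonneg _) fun i _ => ?_
    rcases hσ i with h | h <;> rw [h] <;> simp
  have h2 : |(∑ f ∈ T, (∏ i, (1 + (σ i : ℝ) * (m i f : ℝ)))) / 2 ^ k - T.card / 2 ^ k| ≤
      ε * T.card := by
    rw [h1, ← sub_div, add_sub_cancel_left, abs_div, abs_of_pos (show (0 : ℝ) < 2 ^ k by positivity),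
      div_le_iff₀ (by positivity)]
    refine (Finset.abs_sum_le_sum_abs _ _).trans ?_
    have e2 : ∀ S ∈ (Finset.univ : Finset (Fin k)).powerset.erase ∅,
        |(∏ i ∈ S, (σ i : ℝ)) * ∑ f ∈ T, ∏ i ∈ S, (m i f : ℝ)| ≤ ε * T.card := by
      intro S hS
      rw [Finset.mem_erase] at hS
      rw [abs_mul]
      exact (mul_le_of_le_one_left (abs_nonneg _) (hσabs S)).trans
        (h S (Finset.nonempty_iff_ne_empty.2 hS.1))
    refine (Finset.sum_le_sum e2).trans ?_
    rw [Finset.sum_const, nsmul_eq_mul, mul_comm]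
    refine mul_le_mul_of_nonneg_left ?_ (by positivity)
    have e3 : ((Finset.univ : Finset (Fin k)).powerset.erase ∅).card ≤ 2 ^ k := by
      refine (Finset.card_erase_le).trans ?_
      rw [Finset.card_powerset, Finset.card_univ, Fintype.card_fin]
    exact_mod_cast e3
  have h3 : |((T.filter (fun f => ∀ i, m i f = σ i)).card : ℝ) -
      (∑ f ∈ T, (∏ i, (1 + (σ i : ℝ) * (m i f : ℝ)))) / 2 ^ k| ≤
      (T.filter (fun f => ∃ i, m i f = 0)).card := by
    rw [Finset.sum_div, Finset.card_filter, Finset.card_filter]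
    push_cast
    rw [← Finset.sum_sub_distrib]
    refine (Finset.abs_sum_le_sum_abs _ _).trans (Finset.sum_le_sum fun f _ => ?_)
    rw [hN f]
    by_cases hsq : ∃ i, m i f = 0
    · rw [if_pos hsq]
      have e4 : ∀ i, 0 ≤ (1 + (σ i : ℝ) * (m i f : ℝ)) / 2 ∧
          (1 + (σ i : ℝ) * (m i f : ℝ)) / 2 ≤ 1 := by
        intro i
        rcases hσ i with h | h <;> rcases hm i f with h' | h' | h' <;>
          rw [h, h'] <;> norm_num
      have e5 : 0 ≤ ∏ i, ((1 + (σ i : ℝ) * (m i f : ℝ)) / 2) :=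
        Finset.prod_nonneg fun i _ => (e4 i).1
      have e6 : ∏ i, ((1 + (σ i : ℝ) * (m i f : ℝ)) / 2) ≤ 1 :=
        Finset.prod_le_one (fun i _ => (e4 i).1) fun i _ => (e4 i).2
      rw [abs_le]
      split_ifs <;> constructor <;> linarith
    · rw [if_neg hsq]
      push Not at hsq
      have e7 : (if ∀ i, m i f = σ i then (1 : ℝ) else 0) =
          ∏ i, ((1 + (σ i : ℝ) * (m i f : ℝ)) / 2) := by
        have e8 : ∀ i, (1 + (σ i : ℝ) * (m i f : ℝ)) / 2 = if m i f = σ i then 1 else 0 := by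
          intro i
          rcases hσ i with h | h <;> rcases (hm i f).resolve_left (hsq i) with h' | h' <;>
            rw [h, h'] <;> norm_num
        rw [Finset.prod_congr rfl fun i _ => e8 i, Finset.prod_ite_zero]
        simp
      rw [e7, sub_self, abs_zero]
  have h4 := abs_sub_le ((T.filter (fun f => ∀ i, m i f = σ i)).card : ℝ)
    ((∑ f ∈ T, (∏ i, (1 + (σ i : ℝ) * (m i f : ℝ)))) / 2 ^ k) (T.card / 2 ^ k : ℝ)
  linarith

/-- an enumeration of a nonempty set with at most `D` elements -/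
theorem enum {R : Type} (s : Finset R) (hs : s.Nonempty) {D : ℕ} (h : s.card ≤ D) :
    ∃ β : Fin D → R, (∀ i, β i ∈ s) ∧ ∀ z ∈ s, ∃ i, β i = z := by
  obtain ⟨z0, hz0⟩ := hs
  refine ⟨fun i => if hi : (i : ℕ) < s.card then (s.equivFin.symm ⟨i, hi⟩ : R) else z0, ?_, ?_⟩
  · intro i
    dsimp only
    split_ifs with hi
    · exact (s.equivFin.symm ⟨i, hi⟩).2
    · exact hz0
  · intro z hz
    have hlt := (s.equivFin ⟨z, hz⟩).2
    refine ⟨⟨(s.equivFin ⟨z, hz⟩ : ℕ), lt_of_lt_of_le hlt h⟩, ?_⟩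
    dsimp only
    rw [dif_pos hlt]
    have e : (⟨((s.equivFin ⟨z, hz⟩ : Fin s.card) : ℕ), hlt⟩ : Fin s.card) = s.equivFin ⟨z, hz⟩ := rfl
    rw [e, Equiv.symm_apply_apply]

section
variable {K : Type} [Field K]

/-- the zeros modulo a prime -/
theorem zeros (F : K[X][X]) (P : K[X]) (hP : Irreducible P) (hF : ∃ x, ¬ P ∣ F.eval x)
    (hx : ∃ x, P ∣ F.eval x) : ∃ β : Fin F.natDegree → K[X], (∀ i, P ∣ F.eval (β i)) ∧
      ∀ x, P ∣ F.eval x → ∃ i, P ∣ x - β i := by
  have : Fact (Irreducible P) := ⟨hP⟩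
  have key : ∀ x, P ∣ F.eval x ↔ (F.map (AdjoinRoot.mk P)).eval (AdjoinRoot.mk P x) = 0 := by
    intro x
    rw [eval_map, eval₂_at_apply, AdjoinRoot.mk_eq_zero]
  have hF0 : F.map (AdjoinRoot.mk P) ≠ 0 := by
    intro h0
    obtain ⟨x, hx⟩ := hF
    apply hx
    rw [key, h0, eval_zero]
  set s := (F.map (AdjoinRoot.mk P)).roots.toFinset with hs
  have hmem : ∀ z, z ∈ s ↔ (F.map (AdjoinRoot.mk P)).eval z = 0 := by
    intro z
    rw [hs, Multiset.mem_toFinset, mem_roots hF0, IsRoot.def]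
  have hne : s.Nonempty := by
    obtain ⟨x, hx⟩ := hx
    exact ⟨AdjoinRoot.mk P x, (hmem _).2 ((key x).1 hx)⟩
  have hcard : s.card ≤ F.natDegree := by
    refine (Multiset.toFinset_card_le _).trans ((card_roots' _).trans ?_)
    exact natDegree_map_le
  obtain ⟨β, h1, h2⟩ := enum s hne hcard
  have hsur : ∀ i, ∃ x, AdjoinRoot.mk P x = β i := fun i => AdjoinRoot.mk_surjective (β i)
  choose γ hγ using hsur
  refine ⟨γ, fun i => ?_, fun x hx => ?_⟩
  · rw [key, hγ]
    exact (hmem _).1 (h1 i)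
  · obtain ⟨i, hi⟩ := h2 (AdjoinRoot.mk P x) ((hmem _).2 ((key x).1 hx))
    refine ⟨i, ?_⟩
    rw [← AdjoinRoot.mk_eq_zero, map_sub, hγ, hi, sub_self]

/-- residues -/
theorem dvd_eval_of {F : K[X][X]} {P x y : K[X]} (h : P ∣ x - y) (hy : P ∣ F.eval y) :
    P ∣ F.eval x := by
  have h1 : x - y ∣ F.eval x - F.eval y := sub_dvd_eval_sub x y F
  have h2 := h.trans h1
  have h3 : F.eval x = (F.eval x - F.eval y) + F.eval y := by ring
  rw [h3]
  exact dvd_add h2 hy

theorem exists_sq {a : K[X]} (h : ¬ Squarefree a) : ∃ P : K[X], P.Monic ∧ Irreducible P ∧ P ^ 2 ∣ a := by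
  by_cases ha : a = 0
  · exact ⟨X, monic_X, irreducible_X, by rw [ha]; exact dvd_zero _⟩
  · unfold Squarefree at h
    push Not at h
    obtain ⟨x, hx, hu⟩ := h
    have hx0 : x ≠ 0 := by
      intro h0
      rw [h0, zero_mul, zero_dvd_iff] at hx
      exact ha hx
    obtain ⟨P, hP1, hP2⟩ := Polynomial.exists_monic_irreducible_factor x hu
    refine ⟨P, hP1, hP2.1, ?_⟩
    rw [sq]
    exact (mul_dvd_mul hP2.2 hP2.2).trans hx

end

open Pool.Agent.H985.Chow (mob MD)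
open Pool.Agent.H694.Typ (Mn mem_Mn card_Mn PU mem_PU)
open Pool.Agent.H225.Par (Sd vf)
open Pool.Agent.H140.PE

section
variable {K : Type} [Field K] {k : ℕ}

/-- a common divisor of two values divides the resultant -/
theorem dvd_N {f : Fin k → K[X][X]} {u v : K[X][X]} {N : K[X]}
    (hsep : u * (∏ i, f i) + v * derivative (∏ i, f i) = C N) {g d : K[X]} {i j : Fin k}
    (hij : i ≠ j) (hi : d ∣ (f i).eval g) (hj : d ∣ (f j).eval g) : d ∣ N := by
  obtain ⟨R, hR⟩ : ∃ R : K[X][X], ∏ i, f i = f i * (f j * R) := by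
    refine ⟨∏ l ∈ (Finset.univ.erase i).erase j, f l, ?_⟩
    rw [Finset.mul_prod_erase _ _ (Finset.mem_erase.2 ⟨hij.symm, Finset.mem_univ _⟩),
      Finset.mul_prod_erase _ _ (Finset.mem_univ _)]
  rw [hR] at hsep
  have h1 := congrArg (eval g) hsep
  rw [derivative_mul, derivative_mul] at h1
  simp only [eval_C, eval_add, eval_mul] at h1
  rw [← h1]
  refine dvd_add (Dvd.dvd.mul_left (Dvd.dvd.mul_right hi _) _) (Dvd.dvd.mul_left (dvd_add ?_ ?_) _)
  · exact Dvd.dvd.mul_left (Dvd.dvd.mul_right hj _) _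
  · exact Dvd.dvd.mul_right hi _

theorem cop_vals {f : Fin k → K[X][X]} {u v : K[X][X]} {N : K[X]} (hN : N ≠ 0)
    (hsep : u * (∏ i, f i) + v * derivative (∏ i, f i) = C N) {g : K[X]} {y : ℕ}
    (hy : N.natDegree ≤ y)
    (hg : ∀ i, ∀ P : K[X], P.Monic → Irreducible P → P ∣ (f i).eval g → y < P.natDegree)
    {i j : Fin k} (hij : i ≠ j) : IsCoprime ((f i).eval g) ((f j).eval g) := by
  refine isCoprime_of_irreducible_dvd ?_ ?_
  · rintro ⟨h1, h2⟩
    have h3 := dvd_N hsep hij (d := 0) (by rw [h1]) (by rw [h2])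
    exact hN (zero_dvd_iff.1 h3)
  · intro P hP h1 h2
    obtain ⟨Q, hQ1, hQ2, hQ3⟩ := Polynomial.exists_monic_irreducible_factor P hP.not_isUnit
    have h3 := dvd_N hsep hij (hQ3.trans h1) (hQ3.trans h2)
    have h4 := natDegree_le_of_dvd h3 hN
    have h5 := hg i Q hQ1 hQ2 (hQ3.trans h1)
    omega

theorem mob_prod {f : Fin k → K[X][X]} {g : K[X]}
    (h : ∀ i j, i ≠ j → IsCoprime ((f i).eval g) ((f j).eval g)) (S : Finset (Fin k))
    (hS : S.Nonempty) :
    mob ((∏ i ∈ S, f i).eval g) = ∏ i ∈ S, mob ((f i).eval g) := by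
  induction hS using Finset.Nonempty.cons_induction with
  | singleton a => rw [Finset.prod_singleton, Finset.prod_singleton]
  | cons a S ha hS ih =>
    rw [Finset.prod_cons, Finset.prod_cons, eval_mul, Pool.Agent.H524.Ext.mob_mul_cop, ih]
    rw [eval_prod]
    exact IsCoprime.prod_right fun j hj => h a j fun e => ha (e ▸ hj)

theorem mob_cases (F : K[X]) : mob F = 0 ∨ mob F = 1 ∨ mob F = -1 := by
  rw [Pool.Agent.H524.Ext.mob_eq]
  split_ifs
  · exact Or.inr (neg_one_pow_eq_or ℤ _)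
  · exact Or.inl rfl

/-- clearing denominators in the relation of separability (copied from H140/E/All.lean) -/
theorem sep_clear (f : K[X][X])
    (h : (f.map (algebraMap K[X] (RatFunc K))).Separable) :
    ∃ (u v : K[X][X]) (N : K[X]), N ≠ 0 ∧ u * f + v * derivative f = C N := by
  obtain ⟨a, b, hab⟩ := h
  obtain ⟨x, hx, hxa⟩ := IsLocalization.integerNormalization_spec (nonZeroDivisors K[X]) a
  obtain ⟨y, hy, hyb⟩ := IsLocalization.integerNormalization_spec (nonZeroDivisors K[X]) b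
  set A := IsLocalization.integerNormalization (nonZeroDivisors K[X]) a
  set B := IsLocalization.integerNormalization (nonZeroDivisors K[X]) b
  refine ⟨C y * A, C x * B, x * y,
    mul_ne_zero (nonZeroDivisors.ne_zero hx) (nonZeroDivisors.ne_zero hy), ?_⟩
  apply map_injective (algebraMap K[X] (RatFunc K))
    (IsFractionRing.injective K[X] (RatFunc K))
  rw [Polynomial.map_add, Polynomial.map_mul, Polynomial.map_mul, Polynomial.map_mul,
    Polynomial.map_mul, hxa, hyb, map_C, map_C, map_C, ← derivative_map, Algebra.smul_def,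
    Algebra.smul_def, map_mul, C_mul]
  have e1 : ∀ r : K[X], algebraMap K[X] (RatFunc K)[X] r =
      C (algebraMap K[X] (RatFunc K) r) := fun r => by
    rw [IsScalarTower.algebraMap_apply K[X] (RatFunc K) (RatFunc K)[X],
      Polynomial.algebraMap_eq]
  rw [e1, e1]
  calc _ = C (algebraMap K[X] (RatFunc K) x) * C (algebraMap K[X] (RatFunc K) y) *
        (a * f.map (algebraMap K[X] (RatFunc K)) +
          b * derivative (f.map (algebraMap K[X] (RatFunc K)))) := by ring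
    _ = _ := by rw [hab, mul_one]

theorem sub_pos {f : Fin k → K[X][X]} (h : ∀ i, 0 < (f i).natDegree) {S : Finset (Fin k)}
    (hS : S.Nonempty) : 0 < (∏ i ∈ S, f i).natDegree := by
  obtain ⟨i, hi⟩ := hS
  rw [natDegree_prod _ _ fun j _ h0 => by
    have := h j
    rw [h0, natDegree_zero] at this
    exact lt_irrefl _ this]
  exact lt_of_lt_of_le (h i) (Finset.single_le_sum (f := fun i => (f i).natDegree)
    (fun _ _ => Nat.zero_le _) hi)

theorem sub_sep {f : Fin k → K[X][X]}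
    (h : ((∏ i, f i).map (algebraMap K[X] (RatFunc K))).Separable) (S : Finset (Fin k)) :
    ((∏ i ∈ S, f i).map (algebraMap K[X] (RatFunc K))).Separable := by
  refine h.of_dvd ?_
  exact Polynomial.map_dvd _ (Finset.prod_dvd_prod_of_subset _ _ _ (Finset.subset_univ _))

theorem sub_sqr {f : Fin k → K[X][X]} {μ : K[X]} (h : ∀ i, SqR (f i) μ) (S : Finset (Fin k)) :
    SqR (∏ i ∈ S, f i) μ := by
  intro θ hθ
  rw [map_prod, Finset.prod_eq_zero_iff] at hθ
  obtain ⟨i, -, hi⟩ := hθ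
  exact h i θ hi

end

section
variable {K : Type} [Field K] [Fintype K] {k : ℕ}

theorem sf_iff (f : Fin k → K[X][X]) (n y : ℕ) (g : K[X]) : g ∈ SfP K f n y ↔
    g ∈ Mn K n ∧ ∀ P ∈ PU K y, ¬ P ∣ (∏ i, f i).eval g := by
  unfold SfP
  rw [Finset.mem_filter]
  refine and_congr_right fun _ => ?_
  constructor
  · intro h P hP hdvd
    obtain ⟨h1, h2, h3⟩ := mem_PU.1 hP
    rw [eval_prod] at hdvd
    obtain ⟨i, -, hi⟩ := (h2.prime.dvd_finsetProd_iff _).1 hdvd
    have := h i P h1 h2 hi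
    omega
  · intro h i P h1 h2 h3
    by_contra hcon
    push Not at hcon
    refine h P (mem_PU.2 ⟨h1, h2, hcon⟩) ?_
    rw [eval_prod]
    exact h3.trans (Finset.dvd_prod_of_mem _ (Finset.mem_univ i))

theorem patP (hp : S_parF) (hq : S_sqF) (hl : S_lowB) : S_patP := by
  intro K _ _ _ k f μ ε hsys hε
  obtain ⟨hpos, hsep, hμ, hsq⟩ := hsys
  rcases Nat.eq_zero_or_pos k with hk | hk
  · subst hk
    refine ⟨1, one_pos, 0, 0, fun n _ y _ _ σ _ => ?_⟩
    have e : (SfP K f n y).filter (fun g => ∀ i : Fin 0, mob ((f i).eval g) = σ i) = SfP K f n y :=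
      Finset.filter_true_of_mem fun g _ i => i.elim0
    rw [e, pow_zero, div_one, sub_self, abs_zero]
    positivity
  obtain ⟨F, hF⟩ : ∃ F : K[X][X], F = ∏ i, f i := ⟨_, rfl⟩
  have hne : (Finset.univ : Finset (Fin k)).Nonempty := ⟨⟨0, hk⟩, Finset.mem_univ _⟩
  have hFpos : 0 < F.natDegree := by rw [hF]; exact sub_pos hpos hne
  obtain ⟨u, v, N, hN, huv⟩ := sep_clear (∏ i, f i) hsep
  have hS : ∀ S : Finset (Fin k), ∃ κ : ℝ, 0 < κ ∧ ∃ y₀ n₀ : ℕ, S.Nonempty → ∀ n : ℕ, n₀ ≤ n →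
      ∀ y : ℕ, y₀ ≤ y → (y : ℝ) ≤ κ * n →
      ∀ (Ps : Finset K[X]) (β : K[X] → Fin F.natDegree → K[X]), SieveB y 1 Ps β →
        (∀ P : K[X], P.Monic → Irreducible P → P.natDegree ≤ y → ∀ g : K[X],
          P ∣ (∏ i ∈ S, f i).eval g → P ∈ Ps ∧ ∃ i, P ∣ g - β P i) →
        |∑ g ∈ SfB K n 1 0 Ps β, (mob ((∏ i ∈ S, f i).eval g) : ℝ)| ≤
          (ε / 2) * (SfB K n 1 0 Ps β).card := by
    intro S
    by_cases hSn : S.Nonempty
    · obtain ⟨κ, hκ, y₀, n₀, h⟩ := hp K (∏ i ∈ S, f i) μ F.natDegree (ε / 2) (sub_pos hpos hSn)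
        (sub_sep hsep S) hμ (sub_sqr hsq S) (by positivity)
      exact ⟨κ, hκ, y₀, n₀, fun _ => h⟩
    · exact ⟨1, one_pos, 0, 0, fun h => absurd h hSn⟩
  choose κ hκ y₀ n₀ hpar using hS
  obtain ⟨C, n₁, hC⟩ := hq K F μ hFpos (by rw [hF]; exact hsep) hμ
    (by rw [hF]; exact sub_sqr hsq Finset.univ)
  obtain ⟨c, hc, B, hB⟩ := hl K F.natDegree 1 (1 / 2) one_ne_zero (by norm_num)
  have hq2 : (2 : ℝ) ≤ (Fintype.card K : ℝ) := by exact_mod_cast Fintype.one_lt_card
  -- the parameters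
  obtain ⟨κ₁, hκ₁, hκ₁'⟩ : ∃ κ₁ : ℝ, 0 < κ₁ ∧ ∀ S, κ₁ ≤ κ S :=
    ⟨(Finset.univ : Finset (Finset (Fin k))).inf' Finset.univ_nonempty κ,
      (Finset.lt_inf'_iff _).2 fun S _ => hκ S, fun S => Finset.inf'_le _ (Finset.mem_univ S)⟩
  have hlim : Filter.Tendsto (fun m : ℕ => 2 * C * ((m : ℝ) ^ F.natDegree / (2 : ℝ) ^ m))
      Filter.atTop (nhds 0) := by
    have h1 := tendsto_pow_const_div_const_pow_of_one_lt F.natDegree (show (1 : ℝ) < 2 by norm_num)
    simpa using h1.const_mul (2 * (C : ℝ))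
  obtain ⟨y₁, hy₁⟩ := (Metric.tendsto_atTop.1 hlim (c * (ε / 4)) (by positivity))
  refine ⟨min κ₁ (min (1 / 2) (1 / (B + 1))), lt_min hκ₁ (lt_min (by norm_num) (by positivity)),
    max (Finset.univ.sup y₀) (max (max y₁ n₁) (N.natDegree + 1)),
    max (Finset.univ.sup n₀) (max n₁ B), fun n hn y hy hyκ σ hσ => ?_⟩
  by_cases hemp : SfP K f n y = ∅
  · rw [hemp]
    simp
  obtain ⟨g0, hg0⟩ := Finset.nonempty_iff_ne_empty.2 hemp
  have hg0' := ((sf_iff f n y g0).1 hg0).2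
  rw [← hF] at hg0'
  have hyS : ∀ S, y₀ S ≤ y := fun S =>
    (Finset.le_sup (Finset.mem_univ S)).trans ((le_max_left _ _).trans hy)
  have hnS : ∀ S, n₀ S ≤ n := fun S =>
    (Finset.le_sup (Finset.mem_univ S)).trans ((le_max_left _ _).trans hn)
  have hyy₁ : y₁ ≤ y := (le_max_left _ _).trans ((le_max_left _ _).trans ((le_max_right _ _).trans hy))
  have hyn₁ : n₁ ≤ y := (le_max_right _ _).trans ((le_max_left _ _).trans ((le_max_right _ _).trans hy))
  have hyN : N.natDegree + 1 ≤ y := (le_max_right _ _).trans ((le_max_right _ _).trans hy)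
  have hnn₁ : n₁ ≤ n := (le_max_left _ _).trans ((le_max_right _ _).trans hn)
  have hnB : B ≤ n := (le_max_right _ _).trans ((le_max_right _ _).trans hn)
  have hn0 : (0 : ℝ) ≤ n := Nat.cast_nonneg _
  have hyS' : ∀ S, (y : ℝ) ≤ κ S * n := fun S => hyκ.trans
    (mul_le_mul_of_nonneg_right ((min_le_left _ _).trans (hκ₁' S)) hn0)
  have hy2 : 2 * y ≤ n := by
    have h1 : (y : ℝ) ≤ 1 / 2 * n := hyκ.trans
      (mul_le_mul_of_nonneg_right ((min_le_right _ _).trans (min_le_left _ _)) hn0)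
    have h2 : (2 : ℝ) * y ≤ n := by linarith
    exact_mod_cast h2
  have hyB : B * y ≤ n := by
    have h2 : (y : ℝ) ≤ 1 / (B + 1) * n := hyκ.trans
      (mul_le_mul_of_nonneg_right ((min_le_right _ _).trans (min_le_right _ _)) hn0)
    have h3 : ((B : ℝ) + 1) * y ≤ n := by
      calc ((B : ℝ) + 1) * y ≤ (B + 1) * (1 / (B + 1) * n) :=
            mul_le_mul_of_nonneg_left h2 (by positivity)
        _ = n := by field_simp
    have h4 : (B + 1) * y ≤ n := by exact_mod_cast h3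
    nlinarith
  -- the sieve
  obtain ⟨Ps, hPs⟩ : ∃ Ps : Finset K[X], Ps = (PU K y).filter (fun P => ∃ x, P ∣ F.eval x) := ⟨_, rfl⟩
  have hPs' : ∀ P, P ∈ Ps ↔ (P.Monic ∧ Irreducible P ∧ P.natDegree ≤ y) ∧ ∃ x, P ∣ F.eval x := by
    intro P
    rw [hPs, Finset.mem_filter, mem_PU]
  have hβ : ∀ P : K[X], ∃ β : Fin F.natDegree → K[X], P ∈ Ps → (∀ i, P ∣ F.eval (β i)) ∧
      ∀ x, P ∣ F.eval x → ∃ i, P ∣ x - β i := by
    intro P
    by_cases hP : P ∈ Ps
    · obtain ⟨h1, h2⟩ := (hPs' P).1 hP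
      obtain ⟨β, hβ⟩ := zeros F P h1.2.1 ⟨g0, hg0' P (mem_PU.2 h1)⟩ h2
      exact ⟨β, fun _ => hβ⟩
    · exact ⟨fun _ => 0, fun h => absurd h hP⟩
  choose β hβ using hβ
  have hsieve : SieveB y 1 Ps β := by
    constructor
    · intro P hP
      obtain ⟨⟨h1, h2, h3⟩, -⟩ := (hPs' P).1 hP
      exact ⟨h1, h2, h3, fun h => h2.not_isUnit (isUnit_of_dvd_one h)⟩
    · intro P hP
      obtain ⟨h1, -⟩ := (hPs' P).1 hP
      exact ⟨g0, fun i hi => hg0' P (mem_PU.2 h1) (dvd_eval_of hi ((hβ P hP).1 i))⟩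
  have hSf : SfB K n 1 0 Ps β = SfP K f n y := by
    ext g
    rw [sf_iff, ← hF]
    unfold SfB
    rw [Finset.mem_filter]
    refine and_congr_right fun _ => ?_
    constructor
    · rintro ⟨-, h⟩ P hP hdvd
      have hP' : P ∈ Ps := (hPs' P).2 ⟨mem_PU.1 hP, g, hdvd⟩
      obtain ⟨i, hi⟩ := (hβ P hP').2 g hdvd
      exact h P hP' i hi
    · intro h
      refine ⟨one_dvd _, fun P hP i hi => ?_⟩
      obtain ⟨h1, -⟩ := (hPs' P).1 hP
      exact h P (mem_PU.2 h1) (dvd_eval_of hi ((hβ P hP).1 i))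
  -- the sums over the subproducts
  have hsum : ∀ S : Finset (Fin k), S.Nonempty →
      |∑ g ∈ SfP K f n y, ∏ i ∈ S, (mob ((f i).eval g) : ℝ)| ≤ ε / 2 * (SfP K f n y).card := by
    intro S hSn
    have h1 := hpar S hSn n (hnS S) y (hyS S) (hyS' S) Ps β hsieve (by
      intro P h1 h2 h3 g hg
      have h4 : P ∣ F.eval g := by
        rw [hF]
        exact hg.trans (eval_dvd (Finset.prod_dvd_prod_of_subset _ _ _ (Finset.subset_univ _)))
      have hP' : P ∈ Ps := (hPs' P).2 ⟨⟨h1, h2, h3⟩, g, h4⟩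
      exact ⟨hP', (hβ P hP').2 g h4⟩)
    rw [hSf] at h1
    rw [Finset.sum_congr rfl fun g hg => ?_]
    · exact h1
    · have hg' : ∀ i, ∀ P : K[X], P.Monic → Irreducible P → P ∣ (f i).eval g → y < P.natDegree := by
        unfold SfP at hg
        exact (Finset.mem_filter.1 hg).2
      rw [mob_prod (fun i j hij => cop_vals hN huv (by omega) hg' hij) S hSn]
      push_cast
      rfl
  have hgen := patt_gen (SfP K f n y) (fun i g => mob ((f i).eval g))
    (fun i g => mob_cases _) σ hσ (ε / 2) (by positivity) hsum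
  -- the values which are not squarefree
  have hcard : (((SfP K f n y).filter (fun g => ∃ i, mob ((f i).eval g) = 0)).card : ℝ) ≤
      C * ((Fintype.card K : ℝ) ^ n / (Fintype.card K : ℝ) ^ y + (Fintype.card K : ℝ) ^ (n / 2)) := by
    refine le_trans ?_ (hC n y hnn₁ hyn₁)
    rw [← Set.ncard_coe_finset]
    have hsub : ((((SfP K f n y).filter (fun g => ∃ i, mob ((f i).eval g) = 0)) : Finset K[X]) :
        Set K[X]) ⊆ MD K n ∩ {g | ∃ P : K[X], Irreducible P ∧ y < P.natDegree ∧ P ^ 2 ∣ F.eval g} := by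
      intro g hg
      rw [Finset.mem_coe, Finset.mem_filter] at hg
      obtain ⟨hg1, i, hi⟩ := hg
      have hg2 := (sf_iff f n y g).1 hg1
      have hg' : ∀ i, ∀ P : K[X], P.Monic → Irreducible P → P ∣ (f i).eval g → y < P.natDegree := by
        unfold SfP at hg1
        exact (Finset.mem_filter.1 hg1).2
      refine ⟨mem_Mn.1 hg2.1, ?_⟩
      have hns : ¬ Squarefree ((f i).eval g) := by
        intro h
        have := Pool.Agent.H524.Ext.mob_mul_self h
        rw [hi] at this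
        norm_num at this
      obtain ⟨P, h1, h2, h3⟩ := exists_sq hns
      refine ⟨P, h2, hg' i P h1 h2 ((dvd_pow_self P two_ne_zero).trans h3), ?_⟩
      refine h3.trans ?_
      rw [hF, eval_prod]
      exact Finset.dvd_prod_of_mem (fun i => (f i).eval g) (Finset.mem_univ i)
    exact_mod_cast Set.ncard_le_ncard hsub
      ((Pool.Agent.H985.Chow.Asm.MD_finite n).subset Set.inter_subset_left)
  obtain ⟨l1, l2, -⟩ := hB n y (by omega) hyB hnB 0 Ps β hsieve
  rw [hSf, natDegree_one, pow_zero, one_mul] at l2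
  have h5 : C * ((Fintype.card K : ℝ) ^ n / (Fintype.card K : ℝ) ^ y +
      (Fintype.card K : ℝ) ^ (n / 2)) ≤ ε / 2 * (SfP K f n y).card := by
    have h6 := hy₁ y hyy₁
    rw [Real.dist_eq, sub_zero] at h6
    have h7 := (le_abs_self _).trans h6.le
    have hypos : (0 : ℝ) < (y : ℝ) := by
      have : 0 < y := by omega
      exact_mod_cast this
    have hqpos : (0 : ℝ) < Fintype.card K := by linarith
    have h8 : (2 : ℝ) ^ y ≤ (Fintype.card K : ℝ) ^ y := pow_le_pow_left₀ (by norm_num) hq2 y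
    have h9 : (Fintype.card K : ℝ) ^ (n / 2) ≤ (Fintype.card K : ℝ) ^ n / (Fintype.card K : ℝ) ^ y := by
      rw [le_div_iff₀ (by positivity), ← pow_add]
      exact pow_le_pow_right₀ (by linarith) (by omega)
    have h10 : 2 * (C : ℝ) / (Fintype.card K : ℝ) ^ y ≤ c * (ε / 4) / (y : ℝ) ^ F.natDegree := by
      rw [div_le_div_iff₀ (by positivity) (by positivity)]
      have h11 : 2 * (C : ℝ) * (y : ℝ) ^ F.natDegree ≤ c * (ε / 4) * 2 ^ y := by
        have h12 : 2 * (C : ℝ) * ((y : ℝ) ^ F.natDegree / 2 ^ y) * 2 ^ y ≤ c * (ε / 4) * 2 ^ y :=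
          mul_le_mul_of_nonneg_right h7 (by positivity)
        refine le_trans (le_of_eq ?_) h12
        field_simp
      exact h11.trans (mul_le_mul_of_nonneg_left h8 (by positivity))
    have hqn : (0 : ℝ) < (Fintype.card K : ℝ) ^ n := by positivity
    calc C * ((Fintype.card K : ℝ) ^ n / (Fintype.card K : ℝ) ^ y + (Fintype.card K : ℝ) ^ (n / 2))
        ≤ C * ((Fintype.card K : ℝ) ^ n / (Fintype.card K : ℝ) ^ y +
          (Fintype.card K : ℝ) ^ n / (Fintype.card K : ℝ) ^ y) := by gcongr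
      _ = 2 * (C : ℝ) / (Fintype.card K : ℝ) ^ y * (Fintype.card K : ℝ) ^ n := by ring
      _ ≤ c * (ε / 4) / (y : ℝ) ^ F.natDegree * (Fintype.card K : ℝ) ^ n :=
          mul_le_mul_of_nonneg_right h10 hqn.le
      _ = ε / 2 * ((1 - 1 / 2) * (c / (y : ℝ) ^ F.natDegree) * (Fintype.card K : ℝ) ^ n) := by ring
      _ ≤ ε / 2 * ((1 - 1 / 2) * vf Ps β * (Fintype.card K : ℝ) ^ n) := by gcongr
      _ ≤ ε / 2 * (SfP K f n y).card := mul_le_mul_of_nonneg_left l2 (by positivity)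
  refine hgen.trans ?_
  linarith

end

end Pool.Agent.H17.PE

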